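import Pool.Agent.Lib.MP_b07157_agE.EG
import Pool.Agent.Lib.MP_b07157_ag.N3.Cls1

/-!
# Homogeneous polynomials: the poles of the motivic zeta functions
-/

noncomputable section

namespace MPb07157

open MvPolynomial

variable {n : ℕ}

/-! ### Homogeneity -/

theorem aeval_mul_of_homog {R : Type} [CommRing R] [Algebra ℂ R] {f : MvPolynomial (Fin n) ℂ}
    {d : ℕ} (hf : f.IsHomogeneous d) (c : R) (α : Fin n → R) :
    aeval (fun i => c * α i) f = c ^ d * aeval α f := by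
  rw [aeval_def, aeval_def, eval₂_eq', eval₂_eq', Finset.mul_sum]
  refine Finset.sum_congr rfl fun v hv => ?_
  have h1 : ∑ i, v i = d := by
    have := hf (mem_support_iff.1 hv)
    rw [← this]
    simp [Finsupp.weight_apply, Finsupp.sum_fintype]
  simp only [mul_pow, Finset.prod_mul_distrib]
  rw [Finset.prod_pow_eq_pow_sum, h1]
  ring

theorem eval_smul_of_homog {f : MvPolynomial (Fin n) ℂ} {d : ℕ} (hf : f.IsHomogeneous d) (c : ℂ)
    (x : Fin n → ℂ) : eval (c • x) f = c ^ d * eval x f := by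
  have h := aeval_mul_of_homog hf c x
  have e1 : ∀ y : Fin n → ℂ, aeval y f = eval y f := fun y => by
    rw [← coe_aeval_eq_eval]
    rfl
  rw [e1, e1] at h
  exact h

/-! ### Arcs at the origin -/

/-- Division of an arc at the origin by `t`. -/
def downPoly (n N : ℕ) (q : Fin n × Fin N) : MvPolynomial (Fin n × Fin (N + 1)) ℂ :=
  X (q.1, q.2.succ)

theorem polyMap_downPoly {N : ℕ} (γ : Fin n × Fin (N + 1) → ℂ) :
    polyMap (downPoly n N) γ = fun q => γ (q.1, q.2.succ) :=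
  polyMap_X (fun q : Fin n × Fin N => (q.1, q.2.succ)) γ

theorem arc_down {N : ℕ} {γ : Fin n × Fin (N + 1) → ℂ} (i : Fin n) (h : γ (i, 0) = 0) :
    arc γ i = PowerSeries.X * arc (polyMap (downPoly n N) γ) i := by
  ext k
  cases k with
  | zero =>
    rw [coeff_arc, dif_pos (Nat.succ_pos N), PowerSeries.coeff_zero_X_mul]
    exact h
  | succ k =>
    rw [PowerSeries.coeff_succ_X_mul, coeff_arc, coeff_arc, polyMap_downPoly]
    by_cases hk : k < N
    · rw [dif_pos (by omega), dif_pos hk]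
      rfl
    · rw [dif_neg (by omega), dif_neg hk]

theorem order_X_pow_mul_iff {d m : ℕ} (φ : PowerSeries ℂ) :
    ((PowerSeries.X : PowerSeries ℂ) ^ d * φ).order = (m : ℕ∞) ↔
      d ≤ m ∧ φ.order = ((m - d : ℕ) : ℕ∞) := by
  rw [PowerSeries.order_mul, PowerSeries.order_X_pow]
  induction φ.order using ENat.recTopCoe with
  | top =>
    constructor
    · intro h; exact absurd h (by simp)
    · rintro ⟨_, h⟩; exact absurd h.symm (ENat.natCast_ne_top _)
  | coe x =>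
    constructor
    · intro h
      have h' : d + x = m := by exact_mod_cast h
      refine ⟨by omega, ?_⟩
      have : x = m - d := by omega
      rw [this]
    · rintro ⟨h1, h2⟩
      have h' : x = m - d := by exact_mod_cast h2
      have : d + x = m := by omega
      exact_mod_cast this

theorem mem_arcs_down {f : MvPolynomial (Fin n) ℂ} {d : ℕ} (hf : f.IsHomogeneous d) {N m : ℕ}
    {γ : Fin n × Fin (N + 1) → ℂ} (h : γ ∈ AtW {0} N) :
    γ ∈ arcs f (N + 1) m ↔ d ≤ m ∧ polyMap (downPoly n N) γ ∈ arcs f N (m - d) := by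
  have h1 : arc γ = fun i => PowerSeries.X * arc (polyMap (downPoly n N) γ) i := by
    funext i
    exact arc_down i (congrFun h i)
  simp only [arcs, Set.mem_ofPred_eq]
  rw [h1, aeval_mul_of_homog hf]
  exact order_X_pow_mul_iff _

/-- Multiplication of a jet by `t`. -/
def upArc {N : ℕ} (δ : Fin n × Fin N → ℂ) (q : Fin n × Fin (N + 1)) : ℂ :=
  if h : q.2 = 0 then 0 else δ (q.1, q.2.pred h)

theorem cls_arcs_down {f : MvPolynomial (Fin n) ℂ} {d : ℕ} (hf : f.IsHomogeneous d) {N m : ℕ}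
    (hm : d ≤ m) :
    cls (arcs f (N + 1) m ∩ AtW {0} N) = cls (arcs f N (m - d)) := by
  refine cls_bijOn ((isConstr_arcs _ _ _).inter (isConstr_AtW (isConstr_point 0) N))
    (isConstr_arcs _ _ _) (downPoly n N) ⟨?_, ?_, ?_⟩
  · rintro γ ⟨h1, h2⟩
    exact ((mem_arcs_down hf h2).1 h1).2
  · rintro γ ⟨-, h2⟩ δ ⟨-, h4⟩ h
    rw [polyMap_downPoly, polyMap_downPoly] at h
    funext ⟨i, k⟩
    refine Fin.cases ?_ (fun k => ?_) k
    · exact (congrFun h2 i).trans (congrFun h4 i).symm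
    · exact congrFun h (i, k)
  · intro δ hδ
    have h2 : upArc δ ∈ AtW (n := n) {0} N := by
      simp only [AtW, Set.mem_ofPred_eq, Set.mem_singleton_iff]
      funext i
      exact dif_pos rfl
    have h3 : polyMap (downPoly n N) (upArc δ) = δ := by
      rw [polyMap_downPoly]
      funext q
      unfold upArc
      rw [dif_neg (Fin.succ_ne_zero _)]
      simp
    refine ⟨upArc δ, ⟨?_, h2⟩, h3⟩
    rw [mem_arcs_down hf h2, h3]
    exact ⟨hm, hδ⟩

theorem arcs_down_empty {f : MvPolynomial (Fin n) ℂ} {d : ℕ} (hf : f.IsHomogeneous d) {N m : ℕ}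
    (hm : m < d) : arcs f (N + 1) m ∩ AtW {0} N = ∅ := by
  rw [Set.eq_empty_iff_forall_notMem]
  rintro γ ⟨h1, h2⟩
  have := ((mem_arcs_down hf h2).1 h1).1
  omega

/-- The normalized class of the arcs with base point in `W` along which `f` has order `m`. -/
def muW (f : MvPolynomial (Fin n) ℂ) (W : Set (Fin n → ℂ)) (m : ℕ) : Mot :=
  ↑((LU ^ (n * (m + 1)))⁻¹) * clsM (arcs f (m + 1) m ∩ AtW W m)

theorem muW_point (f : MvPolynomial (Fin n) ℂ) (p : Fin n → ℂ) (m : ℕ) :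
    muW f {p} m = Zcoeff0 (translate p f) m := clsM_arcs_point f p m

theorem translate_zero (f : MvPolynomial (Fin n) ℂ) : translate 0 f = f := by
  unfold translate
  simp only [Pi.zero_apply, map_zero, add_zero]
  exact aeval_X_left_apply f

theorem Zcoeff0_homog {f : MvPolynomial (Fin n) ℂ} {d : ℕ} (hf : f.IsHomogeneous d) (hd : 0 < d)
    (m : ℕ) :
    Zcoeff0 f m = if d ≤ m then ↑((LU ^ n)⁻¹) * Zcoeff f (m - d) else 0 := by
  have h0 : Zcoeff0 f m = muW f {0} m := by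
    rw [muW_point, translate_zero]
  rw [h0]
  split_ifs with hm
  · rw [← mu_eq f (show m - d < m by omega)]
    unfold muW mu clsM
    rw [cls_arcs_down hf hm, ← mul_assoc, ← Units.val_mul]
    congr 2
    rw [mul_add, mul_one, pow_add, mul_inv, mul_comm]
  · unfold muW clsM
    rw [arcs_down_empty hf (not_le.1 hm), cls_empty, map_zero, mul_zero]

/-- `Z_{f,0} = L^{-n} T^d Z_f` for homogeneous `f` of degree `d`. -/
theorem Zmot0_homog {f : MvPolynomial (Fin n) ℂ} {d : ℕ} (hf : f.IsHomogeneous d) (hd : 0 < d) :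
    Zmot0 f = PowerSeries.C (↑((LU ^ n)⁻¹) : Mot) * (PowerSeries.X ^ d * Zmot f) := by
  ext m
  rw [PowerSeries.coeff_C_mul, PowerSeries.coeff_X_pow_mul']
  unfold Zmot0 Zmot
  rw [PowerSeries.coeff_mk, Zcoeff0_homog hf hd]
  split_ifs with hm
  · rw [PowerSeries.coeff_mk]
  · rw [mul_zero]

theorem isPole_of_isPole0_homog {f : MvPolynomial (Fin n) ℂ} {d : ℕ} (hf : f.IsHomogeneous d)
    (hd : 0 < d) {s₀ : ℚ} (hp : IsPole (Zmot0 f) s₀) : IsPole (Zmot f) s₀ := by
  intro h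
  apply hp
  rw [Zmot0_homog hf hd]
  exact mul_mem (C_mem_regularAt s₀ _) (mul_mem (pow_mem (X_mem_regularAt s₀) d) h)

/-! ### Arcs at the points of a line -/

/-- The line through `p`, without the origin. -/
def lineW (p : Fin n → ℂ) : Set (Fin n → ℂ) := {x | ∃ c : ℂ, c ≠ 0 ∧ x = c • p}

theorem isConstr_lineW {p : Fin n → ℂ} (hp : p ≠ 0) : IsConstr (lineW p) := by
  obtain ⟨j, hj⟩ := Function.ne_iff.1 hp
  simp only [Pi.zero_apply] at hj
  have h : lineW p = {x | x j ≠ 0 ∧ ∀ i ∈ (Finset.univ : Finset (Fin n)),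
      x i * p j - x j * p i = 0} := by
    ext x
    simp only [lineW, Set.mem_ofPred_eq, Finset.mem_univ, true_imp_iff]
    constructor
    · rintro ⟨c, hc, rfl⟩
      refine ⟨mul_ne_zero hc hj, fun i => ?_⟩
      simp only [Pi.smul_apply, smul_eq_mul]
      ring
    · rintro ⟨h1, h2⟩
      refine ⟨x j / p j, div_ne_zero h1 hj, ?_⟩
      funext i
      simp only [Pi.smul_apply, smul_eq_mul]
      have := h2 i
      field_simp
      linear_combination this
  rw [h]
  refine isConstr_setOf_and ?_ (isConstr_forall_mem _ _ fun i _ => ?_)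
  · have := isConstr_ne_zero (X j : MvPolynomial (Fin n) ℂ)
    simpa using this
  · have := isConstr_eq_zero (X i * C (p j) - X j * C (p i) : MvPolynomial (Fin n) ℂ)
    simpa using this

/-- Scaling of arcs. -/
def scalePoly (n N : ℕ) (q : Fin n × Fin N) : MvPolynomial (Fin 1 ⊕ (Fin n × Fin N)) ℂ :=
  X (Sum.inl 0) * X (Sum.inr q)

theorem polyMap_scalePoly {N : ℕ} (x : Fin 1 ⊕ (Fin n × Fin N) → ℂ) :
    polyMap (scalePoly n N) x = fun q => x (Sum.inl 0) * x (Sum.inr q) := by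
  funext q
  simp [polyMap, scalePoly]

theorem arc_scale {N : ℕ} (c : ℂ) (γ : Fin n × Fin N → ℂ) :
    arc (fun q => c * γ q) = fun i => PowerSeries.C c * arc γ i := by
  funext i
  ext k
  rw [PowerSeries.coeff_C_mul, coeff_arc, coeff_arc]
  split_ifs
  · rfl
  · rw [mul_zero]

theorem mem_arcs_scale {f : MvPolynomial (Fin n) ℂ} {d : ℕ} (hf : f.IsHomogeneous d) {N m : ℕ}
    {c : ℂ} (hc : c ≠ 0) (γ : Fin n × Fin N → ℂ) :
    (fun q => c * γ q) ∈ arcs f N m ↔ γ ∈ arcs f N m := by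
  simp only [arcs, Set.mem_ofPred_eq]
  rw [arc_scale, aeval_mul_of_homog hf, PowerSeries.order_mul]
  have h1 : ((PowerSeries.C c : PowerSeries ℂ) ^ d).order = 0 := by
    refine PowerSeries.order_zero_of_unit (IsUnit.pow _ ?_)
    rw [PowerSeries.isUnit_iff_constantCoeff, PowerSeries.constantCoeff_C]
    exact isUnit_iff_ne_zero.2 hc
  rw [h1, zero_add]

theorem cls_line {f : MvPolynomial (Fin n) ℂ} {d : ℕ} (hf : f.IsHomogeneous d)
    {p : Fin n → ℂ} (hp : p ≠ 0) (N m : ℕ) :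
    cls (arcs f (N + 1) m ∩ AtW (lineW p) N) = (L - 1) * cls (arcs f (N + 1) m ∩ AtW {p} N) := by
  have hS : IsConstr (arcs f (N + 1) m ∩ AtW {p} N) :=
    (isConstr_arcs _ _ _).inter (isConstr_AtW (isConstr_point p) N)
  rw [← cls_torus1, ← cls_prodSum isConstr_torus1 hS]
  symm
  refine cls_bijOn (isConstr_prodSum isConstr_torus1 hS)
    ((isConstr_arcs _ _ _).inter (isConstr_AtW (isConstr_lineW hp) N)) (scalePoly n (N + 1))
    ⟨?_, ?_, ?_⟩
  · rintro x ⟨h1, h2, h3⟩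
    rw [polyMap_scalePoly]
    have h1' : x (Sum.inl 0) ≠ 0 := h1
    refine ⟨(mem_arcs_scale hf h1' _).2 h2, x (Sum.inl 0), h1', ?_⟩
    have h3' : (fun i => x (Sum.inr (i, 0))) = p := h3
    funext i
    show x (Sum.inl 0) * x (Sum.inr (i, 0)) = x (Sum.inl 0) * p i
    rw [← h3']
  · rintro x ⟨h1, -, h3⟩ y ⟨h1', -, h3'⟩ h
    rw [polyMap_scalePoly, polyMap_scalePoly] at h
    have e1 : (fun i => x (Sum.inr (i, 0))) = p := h3
    have e2 : (fun i => y (Sum.inr (i, 0))) = p := h3'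
    have h1'' : y (Sum.inl 0) ≠ 0 := h1'
    obtain ⟨j, hj⟩ := Function.ne_iff.1 hp
    simp only [Pi.zero_apply] at hj
    have h4 : x (Sum.inl 0) * x (Sum.inr (j, 0)) = y (Sum.inl 0) * y (Sum.inr (j, 0)) :=
      congrFun h (j, 0)
    have e3 : x (Sum.inr (j, 0)) = p j := congrFun e1 j
    have e4 : y (Sum.inr (j, 0)) = p j := congrFun e2 j
    rw [e3, e4] at h4
    have h5 : x (Sum.inl 0) = y (Sum.inl 0) := mul_right_cancel₀ hj h4
    funext k
    rcases k with u | q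
    · rw [Subsingleton.elim u 0]
      exact h5
    · have h6 : x (Sum.inl 0) * x (Sum.inr q) = y (Sum.inl 0) * y (Sum.inr q) := congrFun h q
      rw [h5] at h6
      exact mul_left_cancel₀ h1'' h6
  · rintro δ ⟨h1, c, hc, h2⟩
    have h3 : (fun q => c * (c⁻¹ * δ q)) = δ := by
      funext q
      rw [mul_inv_cancel_left₀ hc]
    refine ⟨Sum.elim (fun _ => c) (fun q => c⁻¹ * δ q), ⟨hc, ?_, ?_⟩, ?_⟩
    · have := (mem_arcs_scale hf hc (fun q => c⁻¹ * δ q)).1 (by rw [h3]; exact h1)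
      exact this
    · show (fun i => c⁻¹ * δ (i, 0)) = p
      funext i
      have h4 : δ (i, 0) = c * p i := congrFun h2 i
      rw [h4, inv_mul_cancel_left₀ hc]
    · rw [polyMap_scalePoly]
      exact h3

theorem muW_line {f : MvPolynomial (Fin n) ℂ} {d : ℕ} (hf : f.IsHomogeneous d)
    {p : Fin n → ℂ} (hp : p ≠ 0) (m : ℕ) :
    muW f (lineW p) m = ((LU : Mot) - 1) * Zcoeff0 (translate p f) m := by
  rw [← muW_point]
  unfold muW clsM
  rw [cls_line hf hp, map_mul, map_sub, map_one, ← LU_val]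
  ring

theorem muW_union (f : MvPolynomial (Fin n) ℂ) {V W : Set (Fin n → ℂ)} (hV : IsConstr V)
    (hW : IsConstr W) (h : Disjoint V W) (m : ℕ) : muW f (V ∪ W) m = muW f V m + muW f W m := by
  unfold muW clsM
  have h1 : arcs f (m + 1) m ∩ AtW (V ∪ W) m =
      (arcs f (m + 1) m ∩ AtW V m) ∪ (arcs f (m + 1) m ∩ AtW W m) := by
    rw [← Set.inter_union_distrib_left]
    rfl
  rw [h1, cls_union ((isConstr_arcs _ _ _).inter (isConstr_AtW hV m))
    ((isConstr_arcs _ _ _).inter (isConstr_AtW hW m)), map_add, mul_add]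
  rw [Set.disjoint_left] at h ⊢
  rintro γ ⟨-, h2⟩ ⟨-, h3⟩
  exact h h2 h3

theorem mem_lineW_symm {p x : Fin n → ℂ} (h : x ∈ lineW p) : p ∈ lineW x := by
  obtain ⟨c, hc, rfl⟩ := h
  exact ⟨c⁻¹, inv_ne_zero hc, by rw [smul_smul, inv_mul_cancel₀ hc, one_smul]⟩

theorem mem_lineW_trans {p q x : Fin n → ℂ} (h : x ∈ lineW p) (h' : p ∈ lineW q) :
    x ∈ lineW q := by
  obtain ⟨c, hc, rfl⟩ := h
  obtain ⟨e, he, rfl⟩ := h'
  exact ⟨c * e, mul_ne_zero hc he, by rw [smul_smul]⟩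

theorem mem_lineW_self (p : Fin n → ℂ) : p ∈ lineW p := ⟨1, one_ne_zero, by rw [one_smul]⟩

theorem exists_lineSet {f : MvPolynomial (Fin n) ℂ} {d : ℕ} (hf : f.IsHomogeneous d) {s₀ : ℚ}
    (P : Finset (Fin n → ℂ)) (hP : ∀ p ∈ P, p ≠ 0 ∧ Zmot0 (translate p f) ∈ regularAt s₀) :
    ∃ W : Set (Fin n → ℂ), IsConstr W ∧ (∀ x, x ∈ W ↔ ∃ p ∈ P, x ∈ lineW p) ∧
      PowerSeries.mk (muW f W) ∈ regularAt s₀ := by
  classical
  induction P using Finset.induction_on with
  | empty =>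
    refine ⟨∅, IsConstr.empty, fun x => by simp, ?_⟩
    have : PowerSeries.mk (muW f ∅) = 0 := by
      ext m
      rw [PowerSeries.coeff_mk, map_zero]
      unfold muW clsM
      have h1 : arcs f (m + 1) m ∩ AtW ∅ m = ∅ := by
        rw [Set.eq_empty_iff_forall_notMem]
        rintro γ ⟨-, h2⟩
        exact h2
      rw [h1, cls_empty, map_zero, mul_zero]
    rw [this]
    exact zero_mem _
  | insert a P ha ih =>
    obtain ⟨W, hW1, hW2, hW3⟩ := ih fun p hp => hP p (Finset.mem_insert_of_mem hp)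
    obtain ⟨ha0, har⟩ := hP a (Finset.mem_insert_self a P)
    by_cases h : ∃ p ∈ P, a ∈ lineW p
    · refine ⟨W, hW1, fun x => ?_, hW3⟩
      rw [hW2]
      constructor
      · rintro ⟨p, hp, hx⟩
        exact ⟨p, Finset.mem_insert_of_mem hp, hx⟩
      · rintro ⟨p, hp, hx⟩
        rcases Finset.mem_insert.1 hp with rfl | hp
        · obtain ⟨q, hq, haq⟩ := h
          exact ⟨q, hq, mem_lineW_trans hx haq⟩
        · exact ⟨p, hp, hx⟩
    · have hdis : Disjoint W (lineW a) := by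
        rw [Set.disjoint_left]
        intro x hx hxa
        obtain ⟨p, hp, hxp⟩ := (hW2 x).1 hx
        exact h ⟨p, hp, mem_lineW_trans (mem_lineW_symm hxa) hxp⟩
      refine ⟨W ∪ lineW a, hW1.union (isConstr_lineW ha0), fun x => ?_, ?_⟩
      · rw [Set.mem_union, hW2]
        constructor
        · rintro (⟨p, hp, hx⟩ | hx)
          · exact ⟨p, Finset.mem_insert_of_mem hp, hx⟩
          · exact ⟨a, Finset.mem_insert_self a P, hx⟩
        · rintro ⟨p, hp, hx⟩
          rcases Finset.mem_insert.1 hp with rfl | hp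
          · exact Or.inr hx
          · exact Or.inl ⟨p, hp, hx⟩
      · have h1 : PowerSeries.mk (muW f (W ∪ lineW a)) = PowerSeries.mk (muW f W) +
            PowerSeries.C ((LU : Mot) - 1) * Zmot0 (translate a f) := by
          ext m
          rw [map_add, PowerSeries.coeff_C_mul]
          unfold Zmot0
          rw [PowerSeries.coeff_mk, PowerSeries.coeff_mk, PowerSeries.coeff_mk,
            muW_union f hW1 (isConstr_lineW ha0) hdis, muW_line hf ha0]
        rw [h1]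
        exact add_mem hW3 (mul_mem (C_mem_regularAt s₀ _) har)

/-! ### The poles -/

/-- The points of `f = 0` different from the origin at which `∂_j f` is the first derivative that
does not vanish. -/
def WJ' (f : MvPolynomial (Fin n) ℂ) (j : Fin n) : Set (Fin n → ℂ) := WJ f j \ {0}

theorem isConstr_WJ' (f : MvPolynomial (Fin n) ℂ) (j : Fin n) : IsConstr (WJ' f j) :=
  (isConstr_WJ f j).diff (isConstr_point 0)

theorem arcs_succ_eq_homog {f : MvPolynomial (Fin n) ℂ} (hf : f ≠ 0) {W : Set (Fin n → ℂ)}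
    (hW : ∀ p, p ≠ 0 → eval p f = 0 → (∀ j, eval p (pderiv j f) = 0) → p ∈ W) (m : ℕ) :
    arcs f (m + 1 + 1) (m + 1) =
      (⋃ j ∈ (Finset.univ : Finset (Fin n)), (arcs f (m + 1 + 1) (m + 1) ∩ AtW (WJ' f j) (m + 1))) ∪
      ((arcs f (m + 1 + 1) (m + 1) ∩ AtW {0} (m + 1)) ∪
        (arcs f (m + 1 + 1) (m + 1) ∩ AtW W (m + 1))) := by
  ext γ
  simp only [Set.mem_union, Set.mem_iUnion, Set.mem_inter_iff, exists_prop, Finset.mem_univ,
    true_and]
  constructor
  · intro h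
    have h0 : eval (fun i => γ (i, 0)) f = 0 := by
      rw [← coeff_zero_Fv hf γ]
      exact ((mem_arcs_iff f _ _ γ).1 h).2 0 (Nat.succ_pos m)
    by_cases hz : (fun i => γ (i, 0)) = 0
    · exact Or.inr (Or.inl ⟨h, hz⟩)
    by_cases hs : ∀ j, eval (fun i => γ (i, 0)) (pderiv j f) = 0
    · exact Or.inr (Or.inr ⟨h, hW _ hz h0 hs⟩)
    · obtain ⟨j, hj⟩ := exists_mem_WJ h0 hs
      exact Or.inl ⟨j, h, hj, hz⟩
  · rintro (⟨j, h, -⟩ | ⟨h, -⟩ | ⟨h, -⟩) <;> exact h

theorem Zcoeff_succ_eq_homog {f : MvPolynomial (Fin n) ℂ} (hf : f ≠ 0) {W : Set (Fin n → ℂ)}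
    (hWc : IsConstr W)
    (hW : ∀ p, p ≠ 0 → eval p f = 0 → (∀ j, eval p (pderiv j f) = 0) → p ∈ W)
    (hW' : ∀ p ∈ W, p ≠ 0 ∧ ∀ j, eval p (pderiv j f) = 0) (m : ℕ) :
    Zcoeff f (m + 1) =
      ∑ j, (↑((LU ^ n)⁻¹) * clsM (WJ' f j) * ((LU : Mot) - 1)) * (↑(LU⁻¹) : Mot) ^ (m + 1) +
      (Zcoeff0 f (m + 1) + muW f W (m + 1)) := by
  have hc1 : ∀ j ∈ (Finset.univ : Finset (Fin n)),
      IsConstr (arcs f (m + 1 + 1) (m + 1) ∩ AtW (WJ' f j) (m + 1)) := fun j _ =>
    (isConstr_arcs _ _ _).inter (isConstr_AtW (isConstr_WJ' f j) _)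
  have hc2 : IsConstr (arcs f (m + 1 + 1) (m + 1) ∩ AtW {0} (m + 1)) :=
    (isConstr_arcs _ _ _).inter (isConstr_AtW (isConstr_point 0) _)
  have hc3 : IsConstr (arcs f (m + 1 + 1) (m + 1) ∩ AtW W (m + 1)) :=
    (isConstr_arcs _ _ _).inter (isConstr_AtW hWc _)
  have h1 : clsM (arcs f (m + 1 + 1) (m + 1)) =
      ∑ j, clsM (arcs f (m + 1 + 1) (m + 1) ∩ AtW (WJ' f j) (m + 1)) +
      (clsM (arcs f (m + 1 + 1) (m + 1) ∩ AtW {0} (m + 1)) +
        clsM (arcs f (m + 1 + 1) (m + 1) ∩ AtW W (m + 1))) := by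
    unfold clsM
    conv_lhs => rw [arcs_succ_eq_homog hf hW m]
    rw [cls_union (isConstr_biUnion _ _ hc1) (hc2.union hc3), cls_union hc2 hc3, map_add,
      map_add, cls_biUnion _ _ hc1, map_sum]
    · intro i _ j _ hij
      rw [Set.disjoint_left]
      rintro γ ⟨-, h2⟩ ⟨-, h3⟩
      exact Set.disjoint_left.1 (disjoint_WJ f hij) h2.1 h3.1
    · rw [Set.disjoint_left]
      rintro γ ⟨-, h2⟩ ⟨-, h3⟩
      exact (hW' _ h3).1 h2
    · rw [Set.disjoint_left]
      intro γ h2 h3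
      simp only [Set.mem_iUnion, exists_prop] at h2
      obtain ⟨j, -, -, h4⟩ := h2
      have h7 : (fun i => γ (i, 0)) ∈ WJ' f j := h4
      rcases h3 with ⟨-, h5⟩ | ⟨-, h5⟩
      · exact h7.2 h5
      · exact h7.1.2.2 ((hW' _ h5).2 j)
  have h0 : Zcoeff0 f (m + 1) = muW f {0} (m + 1) := by
    rw [muW_point, translate_zero]
  rw [h0]
  unfold Zcoeff muW
  have h8 : ∀ a b c e : Mot, a * (b + (c + e)) = a * b + (a * c + a * e) := fun a b c e => by ring
  rw [h1, h8, Finset.mul_sum]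
  congr 1
  refine Finset.sum_congr rfl fun j _ => ?_
  exact clsM_arcs_AtW hf (isConstr_WJ' f j) (fun p hp => hp.1.1) j (fun p hp => hp.1.2.2) m

/-- The inverse of `1 - L^{-n} T^d`. -/
theorem exists_inv_mem {d : ℕ} (hd : 0 < d) {s₀ : ℚ} (h : (n : ℚ) / d ≠ -s₀) :
    ∃ g ∈ regularAt s₀, g * (1 - PowerSeries.C (↑((LU ^ n)⁻¹) : Mot) * PowerSeries.X ^ d) = 1 := by
  have h1 : PowerSeries.constantCoeff
      (1 - PowerSeries.C (↑((LU ^ n)⁻¹) : Mot) * PowerSeries.X ^ d) = ((1 : Motˣ) : Mot) := by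
    simp [hd.ne']
  have h2 := PowerSeries.mul_invOfUnit
    (1 - PowerSeries.C (↑((LU ^ n)⁻¹) : Mot) * PowerSeries.X ^ d) 1 h1
  refine ⟨_, ?_, (mul_comm _ _).trans h2⟩
  refine Algebra.subset_adjoin (Or.inr ⟨(n : ℤ), d, hd, by rw [Int.cast_natCast]; exact h, ?_⟩)
  rw [zpow_neg, zpow_natCast]
  exact (mul_comm _ _).trans h2

/-- For homogeneous `f` of degree `d`, the poles of `Z_f` different from `-1` and `-n/d` are poles
of the local zeta functions at the singular points different from the origin; here it is assumed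
that the singular locus is a finite union of lines. -/
theorem exists_pole_of_homog {f : MvPolynomial (Fin n) ℂ} (hf0 : f ≠ 0) {d : ℕ}
    (hf : f.IsHomogeneous d) (hd : 0 < d) (P : Finset (Fin n → ℂ))
    (hP : ∀ p, p ≠ 0 → eval p f = 0 → (∀ j, eval p (pderiv j f) = 0) →
      ∃ q ∈ P, ∃ c : ℂ, p = c • q)
    {s₀ : ℚ} (h1 : s₀ ≠ -1) (h2 : s₀ ≠ -((n : ℚ) / d)) (hp : IsPole (Zmot f) s₀) :
    ∃ p ∈ P, p ≠ 0 ∧ (eval p f = 0 ∧ ∀ j, eval p (pderiv j f) = 0) ∧
      IsPole (Zmot0 (translate p f)) s₀ := by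
  classical
  by_contra hcon
  push Not at hcon
  apply hp
  set P' := P.filter fun p => p ≠ 0 ∧ eval p f = 0 ∧ ∀ j, eval p (pderiv j f) = 0 with hP'
  obtain ⟨W, hW1, hW2, hW3⟩ := exists_lineSet hf (s₀ := s₀) P' (by
    intro p hp
    rw [hP', Finset.mem_filter] at hp
    have := hcon p hp.1 hp.2.1 hp.2.2
    unfold IsPole at this
    exact ⟨hp.2.1, not_not.1 this⟩)
  have hder : ∀ (c : ℂ) (x : Fin n → ℂ) (j : Fin n), eval x (pderiv j f) = 0 →
      eval (c • x) (pderiv j f) = 0 := by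
    intro c x j hx
    rw [eval_smul_of_homog hf.pderiv, hx, mul_zero]
  have hWs : ∀ p, p ≠ 0 → eval p f = 0 → (∀ j, eval p (pderiv j f) = 0) → p ∈ W := by
    intro p hp0 hp1 hp2
    obtain ⟨q, hq, c, rfl⟩ := hP p hp0 hp1 hp2
    have hc : c ≠ 0 := by
      rintro rfl
      exact hp0 (zero_smul _ _)
    have hq0 : q ≠ 0 := by
      rintro rfl
      exact hp0 (smul_zero _)
    have hq' : q = c⁻¹ • (c • q) := by rw [smul_smul, inv_mul_cancel₀ hc, one_smul]
    rw [hW2]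
    refine ⟨q, ?_, c, hc, rfl⟩
    rw [hP', Finset.mem_filter]
    refine ⟨hq, hq0, ?_, fun j => ?_⟩
    · rw [hq', eval_smul_of_homog hf, hp1, mul_zero]
    · rw [hq']
      exact hder _ _ j (hp2 j)
  have hWs' : ∀ p ∈ W, p ≠ 0 ∧ ∀ j, eval p (pderiv j f) = 0 := by
    intro p hpW
    obtain ⟨q, hq, c, hc, rfl⟩ := (hW2 p).1 hpW
    rw [hP', Finset.mem_filter] at hq
    exact ⟨smul_ne_zero hc hq.2.1, fun j => hder c q j (hq.2.2.2 j)⟩
  set c : Mot := ∑ j, (↑((LU ^ n)⁻¹) * clsM (WJ' f j) * ((LU : Mot) - 1)) with hc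
  set c0 : Mot := Zcoeff f 0 - (Zcoeff0 f 0 + muW f W 0) - c with hc0
  have key : Zmot f = PowerSeries.C c0 + PowerSeries.C c * geoS +
      (Zmot0 f + PowerSeries.mk (muW f W)) := by
    ext k
    rw [map_add, map_add, map_add (PowerSeries.coeff k) (Zmot0 f), PowerSeries.coeff_C_mul,
      PowerSeries.coeff_C]
    unfold Zmot Zmot0 geoS
    simp only [PowerSeries.coeff_mk]
    cases k with
    | zero =>
      rw [if_pos rfl, pow_zero, mul_one, hc0]
      ring
    | succ k =>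
      rw [if_neg (Nat.succ_ne_zero k), zero_add, Zcoeff_succ_eq_homog hf0 hW1 hWs hWs' k,
        ← Finset.sum_mul]
  rw [Zmot0_homog hf hd] at key
  obtain ⟨g, hg1, hg2⟩ := exists_inv_mem (n := n) hd (s₀ := s₀) (fun h => h2 (by rw [h, neg_neg]))
  have key2 : Zmot f = (PowerSeries.C c0 + PowerSeries.C c * geoS + PowerSeries.mk (muW f W)) * g := by
    have h3 : Zmot f * (1 - PowerSeries.C (↑((LU ^ n)⁻¹) : Mot) * PowerSeries.X ^ d) =
        PowerSeries.C c0 + PowerSeries.C c * geoS + PowerSeries.mk (muW f W) := by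
      rw [mul_sub, mul_one]
      nth_rewrite 1 [key]
      ring
    rw [← h3, mul_assoc, mul_comm _ g, hg2, mul_one]
  rw [key2]
  exact mul_mem (add_mem (add_mem (C_mem_regularAt s₀ c0)
    (mul_mem (C_mem_regularAt s₀ c) (geoS_mem h1))) hW3) hg1

end MPb07157
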